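import Pool.Agent.Helper64.BKS.Stmts2
import Pool.Agent.Helper57.REC.Stmts1

/-!
Row BLD of project BKS: open normal subgroups give extensions.
-/

set_option autoImplicit false

open NumberField
open scoped Classical

namespace BKA

theorem st_BLD (hFRM : REC.ST_FRM) (hOVP : REC.ST_OVP) : ST_BLD := by
  intro F E k _ _ _ _ _ V N hN hNo
  haveI := hN
  haveI hfin : Finite (Gal F ⧸ N) := Subgroup.quotient_finite_of_isOpen N hNo
  obtain ⟨B, hB⟩ := hFRM F (Gal F ⧸ N) (QuotientGroup.mk' N) (by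
    rw [QuotientGroup.ker_mk']
    exact hNo)
  obtain ⟨h1, h2, -⟩ := hOVP F
  choose P hP using h1
  choose σ hσ using fun v => h2 v (P v) (hP v)
  have hov : ∀ (v : Pl F) (𝔓 : Ideal (Zb F)), Over v 𝔓 ↔ REC.OverP v 𝔓 := fun v 𝔓 =>
    ⟨fun h => ⟨h.1, fun x y hxy => (h.2 x y hxy).symm⟩,
      fun h => ⟨h.1, fun x y hxy => (h.2 x y hxy).symm⟩⟩
  refine ⟨V.S ∪ B, Finset.subset_union_left,
    { N := N
      normal := hN
      isOpen := hNo
      fin := hfin
      g := fun v => QuotientGroup.mk (σ v)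
      unr := ?_
      frob := ?_ }, rfl⟩
  · intro v hv 𝔓 h𝔓 τ hτ
    have hv' : v ∉ B := fun h => hv (Finset.mem_union_right _ h)
    have h3 := hB v hv' 𝔓 ((hov v 𝔓).1 h𝔓) τ hτ
    exact (QuotientGroup.eq_one_iff τ).1 h3
  · intro v _
    exact ⟨P v, σ v, (hov v _).2 (hP v), hσ v, rfl⟩

end BKA
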