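import Pool.Agent.Helper64.BKS.Stmts
import Pool.Agent.Helper57.REC.Stmts1

/-!
Row DSJ of project BKS: linear disjointness by complete splitting.
-/

set_option autoImplicit false

open NumberField
open scoped Classical

namespace BKS

open BKA (Gal Zb Pl q Over Congr)

namespace DSJaux

theorem dec_of_congr {F : Type} [Field F] {𝔓 : Ideal (Zb F)} (hp : 𝔓.IsPrime) {m : ℕ} (hm : m ≠ 0)
    {σ : Gal F} (h : Congr 𝔓 m σ) : σ ∈ Dec 𝔓 := by
  intro x y hxy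
  have h1 := h x y hxy
  constructor
  · intro hx
    have h2 : x ^ m ∈ 𝔓 := 𝔓.pow_mem_of_mem hx m (Nat.pos_of_ne_zero hm)
    have h3 : y = (y - x ^ m) + x ^ m := by ring
    rw [h3]
    exact 𝔓.add_mem h1 h2
  · intro hy
    have h3 : x ^ m = y - (y - x ^ m) := by ring
    exact hp.mem_of_pow_mem m (by rw [h3]; exact 𝔓.sub_mem hy h1)

theorem finite_above {G : Type} [Group G] (M : Subgroup G) [M.Normal] [Finite (G ⧸ M)] :
    {Y : Subgroup G | M ≤ Y}.Finite := by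
  refine Set.Finite.of_finite_image (f := fun Y => Y.map (QuotientGroup.mk' M))
    (Set.toFinite _) ?_
  intro Y hY Z hZ hYZ
  dsimp only at hYZ
  have h1 := congrArg (Subgroup.comap (QuotientGroup.mk' M)) hYZ
  rw [Subgroup.comap_map_eq, Subgroup.comap_map_eq, QuotientGroup.ker_mk'] at h1
  rwa [sup_eq_left.2 hY, sup_eq_left.2 hZ] at h1

theorem q_pos {F : Type} [Field F] [NumberField F] (v : Pl F) : q v ≠ 0 := by
  unfold q
  intro h
  rw [Ideal.absNorm_eq_zero_iff] at h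
  exact v.ne_bot h

end DSJaux

open DSJaux in
theorem st_DSJ (hDN1 : REC.ST_DN1) (hOVP : REC.ST_OVP) : ST_DSJ := by
  intro F _ _ M hM hMo B
  haveI := hM
  haveI : Finite (Gal F ⧸ M) := Subgroup.quotient_finite_of_isOpen M hMo
  let S : Set (Subgroup (Gal F)) := {Y | M ≤ Y ∧ Y.Normal ∧ Y ≠ ⊤}
  have hS : S.Finite := (finite_above M).subset fun Y hY => hY.1
  have hex : ∀ Y : S, ∃ v : Pl F, v ∉ B ∧ ¬ REC.SplY (Y : Subgroup (Gal F)) v := by
    rintro ⟨Y, hY⟩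
    by_contra hcon
    push Not at hcon
    refine hY.2.2 (hDN1 F Y ⊤ hY.2.1 inferInstance (Subgroup.isOpen_mono hY.1 hMo) isOpen_univ
      le_top B fun v hv _ => hcon v hv)
  choose w hw1 hw2 using hex
  haveI := hS.fintype
  refine ⟨(Finset.univ : Finset S).image w, ?_, ?_⟩
  · rw [Finset.disjoint_left]
    intro v hv
    rw [Finset.mem_image] at hv
    obtain ⟨Y, -, rfl⟩ := hv
    exact hw1 Y
  · intro N hN hsplit
    by_contra hne
    haveI := hN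
    have hY : N ⊔ M ∈ S := ⟨le_sup_right, inferInstance, hne⟩
    apply hw2 ⟨_, hY⟩
    obtain ⟨h1, h2, -⟩ := hOVP F
    obtain ⟨𝔓, h𝔓⟩ := h1 (w ⟨_, hY⟩)
    obtain ⟨σ, hσ⟩ := h2 _ 𝔓 h𝔓
    have hov : Over (w ⟨_, hY⟩) 𝔓 := ⟨h𝔓.1, fun x y hxy => (h𝔓.2 x y hxy).symm⟩
    have hD : Dec 𝔓 ≤ N := hsplit _ (Finset.mem_image_of_mem w (Finset.mem_univ _)) 𝔓 hov
    refine ⟨𝔓, h𝔓, fun τ hτ => ?_, σ, ?_, hσ⟩
    · exact (le_sup_left : N ≤ N ⊔ M) (hD (dec_of_congr h𝔓.1 one_ne_zero hτ))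
    · exact (le_sup_left : N ≤ N ⊔ M) (hD (dec_of_congr h𝔓.1 (q_pos _) hσ))

end BKS
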