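import Pool.Agent.Helper64.BKS.Stmts2

/-!
Row ENL of project BKS: the Selmer group and the order of the `L`-function over `F` do not change when
the set of bad places is enlarged.
-/

set_option autoImplicit false

open NumberField
open scoped Classical Topology

namespace BKA

namespace ENLaux

theorem euler_top {G : Type} [Group G] [Fintype G] (χ : (⊤ : Subgroup G) →* ℂˣ) (hχ : χ = 1)
    (g : G) (Y : ℂ) : euler ⊤ χ g Y = 1 - Y := by
  subst hχ
  unfold euler
  have hs : Subsingleton (G ⧸ (⊤ : Subgroup G)) := QuotientGroup.subsingleton_quotient_top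
  have hs2 : Subsingleton (MulAction.orbitRel.Quotient (Subgroup.zpowers g)
      (G ⧸ (⊤ : Subgroup G))) := by
    refine ⟨fun a b => ?_⟩
    induction a using Quotient.inductionOn' with
    | _ a =>
      induction b using Quotient.inductionOn' with
      | _ b => rw [Subsingleton.elim a b]
  rw [Fintype.prod_subsingleton _ (Quotient.mk'' (QuotientGroup.mk (1 : G)))]
  have hper : ∀ x : G ⧸ (⊤ : Subgroup G),
      Function.minimalPeriod (fun x : G ⧸ (⊤ : Subgroup G) => g • x) x = 1 := by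
    intro x
    rw [Function.minimalPeriod_eq_one_iff_isFixedPt]
    exact Subsingleton.elim _ _
  rw [hper, pow_one]
  have hext : ∀ y : G, ext (⊤ : Subgroup G) (1 : (⊤ : Subgroup G) →* ℂˣ) y = 1 := by
    intro y
    unfold ext
    rw [dif_pos (Subgroup.mem_top y)]
    rfl
  rw [hext, one_mul, pow_one]

theorem selDim_congr {k Γ : Type} [Field k] [TopologicalSpace k] [Group Γ] [TopologicalSpace Γ]
    {d : ℕ} (ρ : Γ →* Matrix.GeneralLinearGroup (Fin d) k) (C : Local ρ) (U U' : Subgroup Γ)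
    (h : U = U') (χ : U →* kˣ) (χ' : U' →* kˣ) (h1 : χ = 1) (h2 : χ' = 1) (n : ℕ)
    (hs : SelDim ρ C U χ n) : SelDim ρ C U' χ' n := by
  subst h
  subst h1
  subst h2
  exact hs

theorem bnd {I : Type} (q : I → ℕ) (α : I → Fin 2 → ℂ) (hq : ∀ v, 2 ≤ q v)
    (hα : ∀ v j, ‖α v j‖ ≤ 1) (s : ℂ) (v : I) (j : Fin 2) :
    ‖α v j * (q v : ℂ) ^ (-s)‖ ≤ (q v : ℝ) ^ (-s.re) := by
  have h1 : ‖(q v : ℂ) ^ (-s)‖ = (q v : ℝ) ^ (-s.re) := by
    rw [Complex.norm_natCast_cpow_of_pos (by have := hq v; omega)]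
    simp
  rw [norm_mul, h1]
  have h2 : (0 : ℝ) ≤ (q v : ℝ) ^ (-s.re) := by positivity
  calc _ ≤ 1 * (q v : ℝ) ^ (-s.re) := mul_le_mul_of_nonneg_right (hα v j) h2
    _ = _ := one_mul _

theorem bnd2 {I : Type} (q : I → ℕ) (α : I → Fin 2 → ℂ) (hq : ∀ v, 2 ≤ q v)
    (hα : ∀ v j, ‖α v j‖ ≤ 1) (s : ℂ) (hs : 1 < s.re) (v : I) (j : Fin 2) :
    ‖α v j * (q v : ℂ) ^ (-s)‖ ≤ 1 / 2 := by
  refine (bnd q α hq hα s v j).trans ?_
  have h2 : (2 : ℝ) ≤ q v := by exact_mod_cast hq v
  calc (q v : ℝ) ^ (-s.re) ≤ (q v : ℝ) ^ (-1 : ℝ) :=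
        Real.rpow_le_rpow_of_exponent_le (by linarith) (by linarith)
    _ = (q v : ℝ)⁻¹ := Real.rpow_neg_one _
    _ ≤ 1 / 2 := by
        rw [one_div]
        exact inv_anti₀ (by norm_num) h2

theorem ne0 {I : Type} (q : I → ℕ) (α : I → Fin 2 → ℂ) (hq : ∀ v, 2 ≤ q v)
    (hα : ∀ v j, ‖α v j‖ ≤ 1) (s : ℂ) (hs : 1 < s.re) (v : I) (j : Fin 2) :
    1 - α v j * (q v : ℂ) ^ (-s) ≠ 0 := by
  intro h
  have h1 := bnd2 q α hq hα s hs v j
  have h2 : α v j * (q v : ℂ) ^ (-s) = 1 := (sub_eq_zero.1 h).symm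
  rw [h2, norm_one] at h1
  norm_num at h1

theorem multipl {I : Type} (q : I → ℕ) (α : I → Fin 2 → ℂ) (hq : ∀ v, 2 ≤ q v)
    (hS : ∀ σ : ℝ, 1 < σ → Summable fun v => (q v : ℝ) ^ (-σ)) (hα : ∀ v j, ‖α v j‖ ≤ 1)
    (s : ℂ) (hs : 1 < s.re) :
    Multipliable fun v => ∏ j : Fin 2, (1 - α v j * (q v : ℂ) ^ (-s))⁻¹ := by
  have hsumj : ∀ j, Summable fun v => -Complex.log (1 - α v j * (q v : ℂ) ^ (-s)) := by
    intro j
    refine Summable.of_norm_bounded ((hS s.re hs).mul_left (3 / 2)) fun v => ?_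
    rw [norm_neg, sub_eq_add_neg]
    refine (Complex.norm_log_one_add_half_le_self (by
      rw [norm_neg]
      exact bnd2 q α hq hα s hs v j)).trans ?_
    rw [norm_neg]
    have := bnd q α hq hα s v j
    linarith
  have hsum : Summable fun v => ∑ j : Fin 2, -Complex.log (1 - α v j * (q v : ℂ) ^ (-s)) :=
    summable_sum fun j _ => hsumj j
  have h1 := hsum.hasSum.cexp
  have h2 : (Complex.exp ∘ fun v => ∑ j : Fin 2, -Complex.log (1 - α v j * (q v : ℂ) ^ (-s))) =
      fun v => ∏ j : Fin 2, (1 - α v j * (q v : ℂ) ^ (-s))⁻¹ := by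
    funext v
    show Complex.exp (∑ j : Fin 2, -Complex.log (1 - α v j * (q v : ℂ) ^ (-s))) = _
    rw [Complex.exp_sum]
    refine Finset.prod_congr rfl fun j _ => ?_
    rw [Complex.exp_neg, Complex.exp_log (ne0 q α hq hα s hs v j)]
  rw [h2] at h1
  exact h1.multipliable

end ENLaux

open ENLaux in
theorem st_ENL (hSUM : ST_SUM) : ST_ENL := by
  intro F E k _ _ _ _ _ V C S' h L₀ L hα
  obtain ⟨hq, hS⟩ := hSUM F
  refine ⟨fun n hn => ?_, fun a ha => ?_⟩
  · unfold Ext.Sel at hn ⊢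
    refine selDim_congr V.ρ C _ _ ?_ _ _ ?_ ?_ n hn
    · unfold Ext.gal
      rw [Subgroup.comap_top, Subgroup.comap_top]
    · ext x
      simp [Ch.map, Ch.triv, Ch.hom]
    · ext x
      simp [Ch.map, Ch.triv, Ch.hom]
  · obtain ⟨Λ, hmer, hΛ, hord⟩ := ha
    -- the correction factor
    let P : ℂ → ℂ := fun s => ∏ v ∈ S' \ V.S, ∏ j : Fin 2, (1 - V.α v j * (q v : ℂ) ^ (-s))
    have hPan : ∀ s, AnalyticAt ℂ P s := by
      intro s
      refine Finset.analyticAt_fun_prod _ fun v _ => Finset.analyticAt_fun_prod _ fun j _ => ?_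
      refine analyticAt_const.sub (analyticAt_const.mul ?_)
      have hq0 : (q v : ℂ) ≠ 0 := by
        have := hq v
        exact_mod_cast (by omega : q v ≠ 0)
      have : Differentiable ℂ fun s : ℂ => (q v : ℂ) ^ (-s) := by
        intro s
        exact (differentiableAt_id.neg).const_cpow (Or.inl hq0)
      exact this.analyticAt s
    have hP0 : P 0 ≠ 0 := by
      refine Finset.prod_ne_zero_iff.2 fun v hv => Finset.prod_ne_zero_iff.2 fun j _ => ?_
      rw [Finset.mem_sdiff] at hv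
      intro h0
      have h1 := hα v hv.2 j
      rw [neg_zero, Complex.cpow_zero, mul_one] at h0
      rw [← sub_eq_zero.1 h0, norm_one] at h1
      exact lt_irrefl _ h1
    refine ⟨fun s => Λ s * P s, ?_, ?_, ?_⟩
    · intro s hs
      exact (hmer s hs).fun_mul (hPan s).meromorphicAt
    · intro s hs
      show Λ s * P s = L.LF ⊤ Ch.triv s
      rw [hΛ s hs]
      let f : Pl F → ℂ := fun v => ∏ j : Fin 2, (1 - V.α v j * (q v : ℂ) ^ (-s))⁻¹
      have e0 : L₀.LF ⊤ Ch.triv s = ∏' v : {v // v ∉ V.S}, f v := by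
        unfold Ext.LF LL
        refine tprod_congr fun v => Finset.prod_congr rfl fun j _ => ?_
        rw [euler_top _ (by
          ext x
          simp [Ch.map, Ch.triv, Ch.hom])]
      have e1 : L.LF ⊤ Ch.triv s = ∏' v : {v // v ∉ S'}, f v := by
        unfold Ext.LF LL
        refine tprod_congr fun v => Finset.prod_congr rfl fun j _ => ?_
        rw [euler_top _ (by
          ext x
          simp [Ch.map, Ch.triv, Ch.hom])]
        rfl
      have hmul : Multipliable fun v : {v // v ∉ S'} => f v :=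
        multipl (fun v : {v // v ∉ S'} => q (v : Pl F)) (fun v => V.α v) (fun v => hq v)
          (fun σ hσ => (hS σ hσ).subtype _) (fun v j => V.bound v (fun hv => v.2 (h hv)) j) s hs
      have e2 : ∏' v : {v // v ∉ V.S}, f v = ∏' v, Set.mulIndicator {v | v ∉ V.S} f v :=
        tprod_subtype {v | v ∉ V.S} f
      have e3 : ∏' v : {v // v ∉ S'}, f v = ∏' v, Set.mulIndicator {v | v ∉ S'} f v :=
        tprod_subtype {v | v ∉ S'} f
      have e4 : ∏ v ∈ S' \ V.S, f v =
          ∏' v, Set.mulIndicator ((S' \ V.S : Finset (Pl F)) : Set (Pl F)) f v := by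
        rw [← tprod_subtype]
        exact (Finset.tprod_subtype (S' \ V.S) f).symm
      have hm1 : Multipliable (Set.mulIndicator {v | v ∉ S'} f) :=
        multipliable_subtype_iff_mulIndicator.1 hmul
      have hm2 : Multipliable (Set.mulIndicator ((S' \ V.S : Finset (Pl F)) : Set (Pl F)) f) :=
        multipliable_subtype_iff_mulIndicator.1 (Finset.multipliable (S' \ V.S) f)
      have e5 : Set.mulIndicator {v | v ∉ V.S} f = fun v => Set.mulIndicator {v | v ∉ S'} f v *
          Set.mulIndicator ((S' \ V.S : Finset (Pl F)) : Set (Pl F)) f v := by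
        funext v
        by_cases h1 : v ∈ V.S
        · have h2 : v ∈ S' := h h1
          simp [h1, h2]
        · by_cases h2 : v ∈ S'
          · simp [h1, h2]
          · simp [h1, h2]
      have e6 : (∏ v ∈ S' \ V.S, f v) * P s = 1 := by
        show (∏ v ∈ S' \ V.S, f v) * (∏ v ∈ S' \ V.S, _) = 1
        rw [← Finset.prod_mul_distrib]
        refine Finset.prod_eq_one fun v hv => ?_
        rw [← Finset.prod_mul_distrib]
        refine Finset.prod_eq_one fun j _ => ?_
        rw [Finset.mem_sdiff] at hv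
        refine inv_mul_cancel₀ ?_
        exact ne0 (fun v : {v // v ∉ V.S} => q (v : Pl F)) (fun v => V.α v) (fun v => hq v)
          (fun v j => V.bound v v.2 j) s hs ⟨v, hv.2⟩ j
      rw [e0, e1, e2, e5, hm1.tprod_mul hm2, ← e4, ← e3, mul_assoc, e6, mul_one]
    · have h1 : meromorphicOrderAt P 0 = 0 := by
        rw [(hPan 0).meromorphicOrderAt_eq, (hPan 0).analyticOrderAt_eq_zero.2 hP0]
        rfl
      have h2 := meromorphicOrderAt_mul (hmer 0 (Set.mem_univ _)) (hPan 0).meromorphicAt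
      rw [hord, h1, add_zero] at h2
      exact h2

end BKA
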